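import Mathlib

set_option autoImplicit false

namespace Pool.Agent.Results.MP_fcd74d_nt.InfinitelyManyGood

open Finset

/-- An integer `n ≥ 3` is good if `n - 2 ^ k` is squarefree for every `k ≥ 1` with `2 ^ k < n`. -/
def Good (n : ℕ) : Prop := 3 ≤ n ∧ ∀ k : ℕ, 1 ≤ k → 2 ^ k < n → Squarefree (n - 2 ^ k)

/-- Primes in `(a, b]`. -/
def PR (a b : ℕ) : Finset ℕ := (Ioc a b).filter Nat.Prime

lemma mem_PR {a b p : ℕ} : p ∈ PR a b ↔ (a < p ∧ p ≤ b) ∧ p.Prime := by
  simp [PR]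

lemma card_dyadic (j : ℕ) : j * (PR (2 ^ j) (2 ^ (j + 1))).card ≤ 2 ^ (j + 2) := by
  have h1 : (2 ^ j) ^ (PR (2 ^ j) (2 ^ (j + 1))).card ≤ ∏ p ∈ PR (2 ^ j) (2 ^ (j + 1)), p := by
    apply Finset.pow_card_le_prod
    intro p hp
    rw [mem_PR] at hp
    exact hp.1.1.le
  have h2 : ∏ p ∈ PR (2 ^ j) (2 ^ (j + 1)), p ≤ primorial (2 ^ (j + 1)) := by
    unfold primorial
    apply Finset.prod_le_prod_of_subset_of_one_le'
    · intro p hp
      rw [mem_PR] at hp
      simp only [Finset.mem_filter, Finset.mem_range]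
      exact ⟨by omega, hp.2⟩
    · intro p hp _
      simp only [Finset.mem_filter, Finset.mem_range] at hp
      exact hp.2.one_lt.le
  have h3 : primorial (2 ^ (j + 1)) ≤ 4 ^ (2 ^ (j + 1)) := primorial_le_four_pow _
  have h4 : (4 : ℕ) ^ (2 ^ (j + 1)) = 2 ^ (2 ^ (j + 2)) := by
    rw [show (4 : ℕ) = 2 ^ 2 by norm_num, ← pow_mul]
    congr 1
    ring
  have h5 : (2 : ℕ) ^ (j * (PR (2 ^ j) (2 ^ (j + 1))).card) ≤ 2 ^ (2 ^ (j + 2)) := by
    rw [pow_mul, ← h4]
    exact h1.trans (h2.trans h3)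
  exact (Nat.pow_le_pow_iff_right (by norm_num)).1 h5

lemma sum_dyadic (j : ℕ) (hj : 1 ≤ j) :
    ∑ p ∈ PR (2 ^ j) (2 ^ (j + 1)), (1 : ℝ) / (p : ℝ) ^ 2 ≤ 4 / (j * 2 ^ j) := by
  have h1 : ∑ p ∈ PR (2 ^ j) (2 ^ (j + 1)), (1 : ℝ) / (p : ℝ) ^ 2
      ≤ ∑ p ∈ PR (2 ^ j) (2 ^ (j + 1)), (1 : ℝ) / (2 ^ j : ℝ) ^ 2 := by
    apply Finset.sum_le_sum
    intro p hp
    rw [mem_PR] at hp
    have h : (2 : ℝ) ^ j ≤ (p : ℝ) := by
      have := hp.1.1.le
      exact_mod_cast this
    apply one_div_le_one_div_of_le (by positivity)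
    exact pow_le_pow_left₀ (by positivity) h 2
  refine h1.trans ?_
  rw [Finset.sum_const, nsmul_eq_mul]
  have hc : (j : ℝ) * ((PR (2 ^ j) (2 ^ (j + 1))).card : ℝ) ≤ 2 ^ (j + 2) := by
    exact_mod_cast card_dyadic j
  have hj' : (0 : ℝ) < j := by exact_mod_cast hj
  have h2 : (0 : ℝ) < 2 ^ j := by positivity
  rw [mul_one_div, div_le_div_iff₀ (by positivity) (by positivity)]
  have e : (2 : ℝ) ^ (j + 2) = 4 * 2 ^ j := by ring
  rw [e] at hc
  nlinarith [mul_le_mul_of_nonneg_right hc h2.le]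

lemma PR_union (a b c : ℕ) (hab : a ≤ b) (hbc : b ≤ c) : PR a c = PR a b ∪ PR b c := by
  ext p
  simp only [Finset.mem_union, mem_PR]
  constructor
  · rintro ⟨⟨h1, h2⟩, h3⟩
    rcases le_or_gt p b with h | h
    · exact Or.inl ⟨⟨h1, h⟩, h3⟩
    · exact Or.inr ⟨⟨h, h2⟩, h3⟩
  · rintro (⟨⟨h1, h2⟩, h3⟩ | ⟨⟨h1, h2⟩, h3⟩)
    · exact ⟨⟨h1, h2.trans hbc⟩, h3⟩
    · exact ⟨⟨lt_of_le_of_lt hab h1, h2⟩, h3⟩

lemma PR_disj (a b c : ℕ) : Disjoint (PR a b) (PR b c) := by
  rw [Finset.disjoint_left]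
  intro p hp hq
  rw [mem_PR] at hp hq
  omega

lemma sum_tail (J : ℕ) (hJ : 1 ≤ J) (M : ℕ) :
    ∑ p ∈ PR (2 ^ J) (2 ^ (J + M)), (1 : ℝ) / (p : ℝ) ^ 2
      ≤ 8 / (J * 2 ^ J) * (1 - 1 / 2 ^ M) := by
  induction M with
  | zero =>
    have : PR (2 ^ J) (2 ^ (J + 0)) = ∅ := by
      ext p
      simp [mem_PR]
    rw [this]
    simp
  | succ M ih =>
    rw [PR_union (2 ^ J) (2 ^ (J + M)) (2 ^ (J + (M + 1)))
      (Nat.pow_le_pow_right (by norm_num) (by omega))
      (Nat.pow_le_pow_right (by norm_num) (by omega)),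
      Finset.sum_union (PR_disj _ _ _)]
    have h := sum_dyadic (J + M) (by omega)
    rw [show J + M + 1 = J + (M + 1) by ring] at h
    have hJ' : (0 : ℝ) < J := by exact_mod_cast hJ
    have h2 : (4 : ℝ) / (((J + M : ℕ) : ℝ) * 2 ^ (J + M)) ≤ 4 / (J * 2 ^ J) * (1 / 2 ^ M) := by
      rw [pow_add, div_mul_div_comm, mul_one]
      apply div_le_div_of_nonneg_left (by norm_num) (by positivity)
      have : (J : ℝ) ≤ ((J + M : ℕ) : ℝ) := by
        push_cast
        have : (0 : ℝ) ≤ M := by positivity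
        linarith
      calc (J : ℝ) * 2 ^ J * 2 ^ M = J * (2 ^ J * 2 ^ M) := by ring
        _ ≤ _ := mul_le_mul_of_nonneg_right this (by positivity)
    have e : (8 : ℝ) / (J * 2 ^ J) * (1 - 1 / 2 ^ (M + 1))
        = 8 / (J * 2 ^ J) * (1 - 1 / 2 ^ M) + 4 / (J * 2 ^ J) * (1 / 2 ^ M) := by
      rw [pow_succ]
      ring
    rw [e]
    linarith

/-- the number of solutions of a linear congruence modulo `m` among `0, …, T - 1`. -/
lemma card_congr (P m c T : ℕ) (hm : 0 < m) (hco : Nat.Coprime m (2 * P)) :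
    (((range T).filter fun t : ℕ => (m : ℤ) ∣ (P : ℤ) * (2 * t + 1) - c).card : ℝ)
      ≤ (T : ℝ) / m + 1 := by
  classical
  by_cases hne : ((range T).filter fun t : ℕ => (m : ℤ) ∣ (P : ℤ) * (2 * t + 1) - c).Nonempty
  · obtain ⟨t0, ht0⟩ := hne
    rw [Finset.mem_filter] at ht0
    have hsub : ((range T).filter fun t : ℕ => (m : ℤ) ∣ (P : ℤ) * (2 * t + 1) - c)
        ⊆ (range T).filter (fun t : ℕ => t ≡ t0 [MOD m]) := by
      intro t ht
      rw [Finset.mem_filter] at ht ⊢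
      refine ⟨ht.1, ?_⟩
      have h1 : (m : ℤ) ∣ ((2 * P : ℕ) : ℤ) * ((t : ℤ) - t0) := by
        have := dvd_sub ht.2 ht0.2
        have e : (P : ℤ) * (2 * t + 1) - c - ((P : ℤ) * (2 * t0 + 1) - c)
            = ((2 * P : ℕ) : ℤ) * ((t : ℤ) - t0) := by
          push_cast
          ring
        rwa [e] at this
      have h2 : (m : ℤ) ∣ (t : ℤ) - t0 := by
        have hc : IsCoprime (m : ℤ) ((2 * P : ℕ) : ℤ) := Nat.isCoprime_iff_coprime.2 hco
        exact hc.dvd_of_dvd_mul_left h1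
      exact ((Nat.modEq_iff_dvd).2 h2).symm
    have hcard : ((range T).filter (fun t : ℕ => t ≡ t0 [MOD m])).card ≤ T / m + 1 := by
      have h3 := Nat.count_modEq_card (r := m) T hm t0
      rw [Nat.count_eq_card_filter_range] at h3
      rw [h3]
      split_ifs <;> omega
    have h4 : (((range T).filter fun t : ℕ => (m : ℤ) ∣ (P : ℤ) * (2 * t + 1) - c).card : ℝ)
        ≤ ((T / m + 1 : ℕ) : ℝ) := by
      exact_mod_cast (Finset.card_le_card hsub).trans hcard
    refine h4.trans ?_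
    push_cast
    have := @Nat.cast_div_le ℝ _ _ _ T m
    linarith
  · rw [Finset.not_nonempty_iff_eq_empty] at hne
    rw [hne]
    simp only [Finset.card_empty, Nat.cast_zero]
    positivity

lemma aux_pow (y : ℕ) (hy : 8 ≤ y) : 28 * y ≤ 2 ^ y := by
  induction y, hy using Nat.le_induction with
  | base => norm_num
  | succ n hn ih =>
    rw [pow_succ]
    omega

theorem exists_good (B : ℕ) : ∃ n : ℕ, B < n ∧ Good n := by
  classical
  obtain ⟨q, hqB, hq⟩ := Nat.exists_infinite_primes (B + 3)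
  obtain ⟨J, hJdef⟩ : ∃ J : ℕ, J = q + 200 := ⟨_, rfl⟩
  obtain ⟨y, hydef⟩ : ∃ y : ℕ, y = 2 ^ J := ⟨_, rfl⟩
  have hJy : J < y := by
    rw [hydef]
    exact Nat.lt_two_pow_self
  obtain ⟨P, hPdef⟩ : ∃ P : ℕ, P = ∏ p ∈ PR 2 y, p := ⟨_, rfl⟩
  have hPpos : 0 < P := by
    rw [hPdef]
    exact Finset.prod_pos fun p hp => (mem_PR.1 hp).2.pos
  have hqP : q ∣ P := by
    rw [hPdef]
    exact Finset.dvd_prod_of_mem (fun p : ℕ => p)
      (by rw [mem_PR]; exact ⟨⟨by omega, by omega⟩, hq⟩)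
  have hPq : q ≤ P := Nat.le_of_dvd hPpos hqP
  have hPle : P ≤ 4 ^ y := by
    refine le_trans ?_ (primorial_le_four_pow y)
    rw [hPdef]
    unfold primorial
    apply Finset.prod_le_prod_of_subset_of_one_le'
    · intro p hp
      rw [mem_PR] at hp
      simp only [Finset.mem_filter, Finset.mem_range]
      exact ⟨by omega, hp.2⟩
    · intro p hp _
      simp only [Finset.mem_filter, Finset.mem_range] at hp
      exact hp.2.one_lt.le
  have hPodd : Odd P := by
    rw [hPdef]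
    apply Finset.prod_induction (fun p : ℕ => p) (fun p => Odd p)
    · intro a b ha hb
      exact ha.mul hb
    · exact odd_one
    · intro p hp
      rw [mem_PR] at hp
      exact hp.2.odd_of_ne_two (by omega)
  obtain ⟨T, hTdef⟩ : ∃ T : ℕ, T = 16 ^ y := ⟨_, rfl⟩
  obtain ⟨K, hKdef⟩ : ∃ K : ℕ, K = 6 * y + 1 := ⟨_, rfl⟩
  have hN : 2 * P * T ≤ 2 ^ K := by
    calc 2 * P * T ≤ 2 * 4 ^ y * 16 ^ y := by
          rw [hTdef]
          gcongr
      _ = 2 ^ K := by
        rw [show (4 : ℕ) = 2 ^ 2 by norm_num, show (16 : ℕ) = 2 ^ 4 by norm_num, ← pow_mul,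
          ← pow_mul, hKdef]
        ring
  obtain ⟨R, hRdef⟩ : ∃ R : ℕ, R = 3 * y + 1 := ⟨_, rfl⟩
  -- the bad set
  let bad : ℕ → ℕ → Finset ℕ := fun k p =>
    (range T).filter fun t : ℕ => ((p ^ 2 : ℕ) : ℤ) ∣ (P : ℤ) * (2 * t + 1) - ((2 ^ k : ℕ) : ℤ)
  let Bad : Finset ℕ := (range K).biUnion fun k => (PR y (2 ^ R)).biUnion fun p => bad k p
  have hbad : ∀ k, ∀ p ∈ PR y (2 ^ R), ((bad k p).card : ℝ) ≤ (T : ℝ) * (1 / (p : ℝ) ^ 2) + 1 := by
    intro k p hp
    rw [mem_PR] at hp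
    have hco : Nat.Coprime (p ^ 2) (2 * P) := by
      apply Nat.Coprime.pow_left
      rw [Nat.Prime.coprime_iff_not_dvd hp.2]
      intro hd
      rcases (Nat.Prime.dvd_mul hp.2).1 hd with h | h
      · have := Nat.le_of_dvd (by norm_num) h
        omega
      · rw [hPdef, Prime.dvd_finsetProd_iff hp.2.prime] at h
        obtain ⟨r, hr, hpr⟩ := h
        rw [mem_PR] at hr
        have := Nat.le_of_dvd hr.2.pos hpr
        omega
    have h := card_congr P (p ^ 2) (2 ^ k) T (by have := hp.2.pos; positivity) hco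
    have e : (T : ℝ) / ((p ^ 2 : ℕ) : ℝ) + 1 = (T : ℝ) * (1 / (p : ℝ) ^ 2) + 1 := by
      push_cast
      ring
    rw [← e]
    exact h
  have hsum : ∑ p ∈ PR y (2 ^ R), (1 : ℝ) / (p : ℝ) ^ 2 ≤ 8 / (J * y) := by
    have h := sum_tail J (by omega) (R - J)
    rw [show J + (R - J) = R by omega] at h
    have h8 : (8 : ℝ) / (J * 2 ^ J) * (1 - 1 / 2 ^ (R - J)) ≤ 8 / (J * 2 ^ J) := by
      have h1 : (0 : ℝ) ≤ 8 / (J * 2 ^ J) := by positivity
      have h2 : (0 : ℝ) ≤ 1 / 2 ^ (R - J) := by positivity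
      nlinarith [mul_nonneg h1 h2]
    have e : ((y : ℕ) : ℝ) = 2 ^ J := by
      rw [hydef]
      push_cast
      rfl
    rw [e]
    rw [← hydef] at h
    exact h.trans h8
  have hBad : ((Bad.card : ℕ) : ℝ) < T := by
    have h1 : (Bad.card : ℝ) ≤ ∑ k ∈ range K, ∑ p ∈ PR y (2 ^ R), ((bad k p).card : ℝ) := by
      have h : Bad.card ≤ ∑ k ∈ range K, ∑ p ∈ PR y (2 ^ R), (bad k p).card :=
        Finset.card_biUnion_le.trans (Finset.sum_le_sum fun k _ => Finset.card_biUnion_le)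
      exact_mod_cast h
    have h2 : ∑ k ∈ range K, ∑ p ∈ PR y (2 ^ R), ((bad k p).card : ℝ)
        ≤ ∑ k ∈ range K, ((T : ℝ) * (8 / (J * y)) + 2 ^ R) := by
      apply Finset.sum_le_sum
      intro k _
      calc ∑ p ∈ PR y (2 ^ R), ((bad k p).card : ℝ)
          ≤ ∑ p ∈ PR y (2 ^ R), ((T : ℝ) * (1 / (p : ℝ) ^ 2) + 1) :=
            Finset.sum_le_sum (hbad k)
        _ = T * (∑ p ∈ PR y (2 ^ R), (1 : ℝ) / (p : ℝ) ^ 2) + (PR y (2 ^ R)).card := by
            rw [Finset.sum_add_distrib, ← Finset.mul_sum]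
            simp
        _ ≤ (T : ℝ) * (8 / (J * y)) + 2 ^ R := by
            have h3 : ((PR y (2 ^ R)).card : ℝ) ≤ 2 ^ R := by
              have : (PR y (2 ^ R)).card ≤ 2 ^ R := by
                calc (PR y (2 ^ R)).card ≤ (Ioc y (2 ^ R)).card := Finset.card_filter_le _ _
                  _ = 2 ^ R - y := by simp
                  _ ≤ 2 ^ R := Nat.sub_le _ _
              exact_mod_cast this
            have h4 := mul_le_mul_of_nonneg_left hsum (Nat.cast_nonneg (α := ℝ) T)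
            linarith
    rw [Finset.sum_const, Finset.card_range, nsmul_eq_mul] at h2
    have hy200 : (200 : ℝ) < y := by
      have : 200 < y := by omega
      exact_mod_cast this
    have hJ200 : (200 : ℝ) ≤ J := by
      have : 200 ≤ J := by omega
      exact_mod_cast this
    have hK : (K : ℝ) ≤ 7 * y := by
      rw [hKdef]
      push_cast
      linarith
    have hTpos : (0 : ℝ) < T := by
      rw [hTdef]
      positivity
    have h5 : (K : ℝ) * ((T : ℝ) * (8 / (J * y))) ≤ T * (56 / 200) := by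
      calc (K : ℝ) * ((T : ℝ) * (8 / (J * y))) ≤ (7 * y) * ((T : ℝ) * (8 / (J * y))) := by
            apply mul_le_mul_of_nonneg_right hK
            positivity
        _ = T * (56 / J) := by
            field_simp
            ring
        _ ≤ T * (56 / 200) := by
            apply mul_le_mul_of_nonneg_left _ hTpos.le
            apply div_le_div_of_nonneg_left (by norm_num) (by norm_num) hJ200
    have h6 : (K : ℝ) * 2 ^ R ≤ T / 2 := by
      have h7 : 28 * y ≤ 2 ^ y := aux_pow y (by omega)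
      have h8 : 2 * (K * 2 ^ R) ≤ T := by
        calc 2 * (K * 2 ^ R) ≤ 2 * ((7 * y) * 2 ^ R) := by
              have : K ≤ 7 * y := by omega
              gcongr
          _ = (28 * y) * 2 ^ (3 * y) := by
              rw [hRdef, pow_succ]
              ring
          _ ≤ 2 ^ y * 2 ^ (3 * y) := Nat.mul_le_mul_right _ h7
          _ = T := by
              rw [hTdef, show (16 : ℕ) = 2 ^ 4 by norm_num, ← pow_mul, ← pow_add]
              congr 1
              ring
      have h9 : (2 : ℝ) * (K * 2 ^ R) ≤ T := by exact_mod_cast h8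
      linarith
    have h10 : (K : ℝ) * ((T : ℝ) * (8 / (J * y)) + 2 ^ R) < T := by
      rw [mul_add]
      linarith
    linarith
  have hlt : Bad.card < (range T).card := by
    rw [Finset.card_range]
    exact_mod_cast hBad
  obtain ⟨t, htT, htB⟩ := Finset.exists_mem_notMem_of_card_lt_card hlt
  rw [Finset.mem_range] at htT
  obtain ⟨n, hndef⟩ : ∃ n : ℕ, n = P * (2 * t + 1) := ⟨_, rfl⟩
  have hPn : P ≤ n := by
    rw [hndef]
    exact Nat.le_mul_of_pos_right _ (by omega)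
  refine ⟨n, by omega, by omega, ?_⟩
  intro k hk hkn
  by_contra hsq
  rw [Nat.squarefree_iff_prime_squarefree] at hsq
  push Not at hsq
  obtain ⟨p, hp, hpd⟩ := hsq
  have hnN : n < 2 ^ K := by
    refine lt_of_lt_of_le ?_ hN
    rw [hndef]
    calc P * (2 * t + 1) < P * (2 * T) := by
          apply Nat.mul_lt_mul_of_pos_left _ hPpos
          omega
      _ = 2 * P * T := by ring
  have hkK : k < K := by
    have : (2 : ℕ) ^ k < 2 ^ K := hkn.trans hnN
    exact (Nat.pow_lt_pow_iff_right (by norm_num)).1 this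
  have hnodd : Odd n := by
    rw [hndef]
    exact hPodd.mul ⟨t, rfl⟩
  have hpdvd : p ∣ n - 2 ^ k := (Dvd.intro _ rfl).trans hpd
  have hp2 : p ≠ 2 := by
    rintro rfl
    have h1 : Even (2 ^ k) := (Nat.even_pow.2 ⟨even_two, by omega⟩)
    have h2 : Odd (n - 2 ^ k) := Nat.Odd.sub_even hkn.le hnodd h1
    exact (Nat.not_even_iff_odd.2 h2) (even_iff_two_dvd.2 hpdvd)
  have hpy : y < p := by
    by_contra hle
    push Not at hle
    have hpP : p ∣ P := by
      rw [hPdef]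
      exact Finset.dvd_prod_of_mem (fun p : ℕ => p) (by
        rw [mem_PR]
        have := hp.two_le
        exact ⟨⟨by omega, hle⟩, hp⟩)
    have hpn : p ∣ n := by
      rw [hndef]
      exact hpP.mul_right _
    have h2k : p ∣ 2 ^ k := by
      have := (Nat.dvd_sub hpn hpdvd)
      rwa [Nat.sub_sub_self hkn.le] at this
    have := (Nat.prime_dvd_prime_iff_eq hp Nat.prime_two).1 (hp.dvd_of_dvd_pow h2k)
    exact hp2 this
  have hpos : 0 < n - 2 ^ k := Nat.sub_pos_of_lt hkn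
  have hpR : p ≤ 2 ^ R := by
    by_contra hgt
    push Not at hgt
    have h1 : p * p ≤ n - 2 ^ k := Nat.le_of_dvd hpos hpd
    have h2 : 2 ^ R * 2 ^ R ≤ p * p := Nat.mul_le_mul hgt.le hgt.le
    have h3 : 2 ^ R * 2 ^ R = 2 ^ K * 2 := by
      rw [← pow_add, hRdef, hKdef, ← pow_succ]
      congr 1
      ring
    have h4 : n - 2 ^ k ≤ n := Nat.sub_le _ _
    omega
  apply htB
  simp only [Bad, Finset.mem_biUnion, Finset.mem_range]
  refine ⟨k, hkK, p, ?_, ?_⟩
  · rw [mem_PR]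
    exact ⟨⟨hpy, hpR⟩, hp⟩
  · simp only [bad, Finset.mem_filter, Finset.mem_range]
    refine ⟨htT, ?_⟩
    have h1 : ((p ^ 2 : ℕ) : ℤ) ∣ ((n - 2 ^ k : ℕ) : ℤ) := by
      rw [Int.natCast_dvd_natCast, pow_two]
      exact hpd
    rw [Nat.cast_sub hkn.le] at h1
    rw [hndef] at h1
    push_cast at h1 ⊢
    exact h1

/-- There are infinitely many good integers. -/
theorem result : {n : ℕ | Good n}.Infinite := by
  rw [Set.infinite_iff_exists_gt]
  intro B
  obtain ⟨n, hn, hg⟩ := exists_good B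
  exact ⟨n, hg, hn⟩

end Pool.Agent.Results.MP_fcd74d_nt.InfinitelyManyGood
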